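import Pool.Agent.X312.CH.Compare

/-!
# A gap law for the kernels of the Abel-Jacobi maps of `Y × X ^ n` over `ℚ`

Let `X` and `Y` be smooth projective varieties over `ℚ` (or over any number field). Nothing is
assumed on `Y`. On `X` we assume that the numerically trivial self-correspondences of its powers
are nilpotent (by Kimura this holds if the Chow motive of `X` is finite-dimensional) and that
homological and numerical equivalence agree on its powers; both are known for products of curves
and for abelian varieties in characteristic zero. Let `ρ(Z)` be the rank of the cycles of all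
codimensions on `Z` modulo numerical equivalence, and `b` the sum of the Betti numbers of `X`. For
all `m ≥ 1`: **the kernels of the Abel-Jacobi maps** `CH^i(Y × X ^ m)^0 → J^i` **are torsion
groups for all** `i`, **or**

`dim {kernels of the Abel-Jacobi maps of Y × X ^ n} ≥ (1 - 4 (m + 3) b ^ (m + 5) log (n + 1) / n)
ρ(X ^ n)`

**for all** `n ≥ 1` (with rational coefficients; the left hand side may be infinite). Moreover the
same is true for the kernels of any two families of Abel-Jacobi maps, for example the complex one
and the p-adic one: **the two kernels agree on** `Y × X ^ m`, **or for all** `n` **one can find at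
least** `(1 - ε_n) ρ(X ^ n)` **elements of one of the kernels which are linearly independent
modulo the intersection of the two kernels** (the same kernel for all `n`).

The proof. For `Z` a power of `X` let `N(Z)` be the space of the cycles in question on `Y × Z`;
the correspondences between powers of `X` act on these spaces. Modulo numerical equivalence the
self-correspondences of `P = X ^ m` form a finite-dimensional algebra, and the numerically trivial
ones are nilpotent, so that idempotents can be lifted. If `N(P) ≠ 0`, one takes an idempotent
correspondence `g` on `P` of minimal rank with `g N(P) ≠ 0` and an element `z ≠ 0` of `g N(P)`.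
The correspondences `x` with `x z = 0` have a nilpotent compression `g x g`, so the trace of `g x`
vanishes, and so `dim N(Z)` is at least the rank of the trace form `(u, v) ↦ tr (g v u)`; for `Z =
X ^ n` this rank is compared with `ρ(X ^ n)` by the log-convexity of the sequence of the ranks of
the intersection forms and by the symmetric group.
-/

set_option autoImplicit false

open CategoryTheory AlgebraicGeometry

universe u v

namespace Pool.Agent.Results.MP_e28333_ag.AbelJacobiGap

open Pool.Agent.H914 VarClass Obj WeilCohomology
open Pool.Agent.W492.BB (TheoryData)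
open Pool.Agent.X312.CH (CycleTheory AbelJacobi HasIndep IndepMod)
open Pool.Agent.Y133.Half (pw cycRank)

variable {k : Type u} [Field k] {𝒱 : VarClass k} {ops : CycleOps 𝒱}
  {W : WeilCohomology.{u, v} ops} {C : TheoryData.{u, 0, 0} 𝒱 ℚ}

/-- The sum of the Betti numbers of `X`. -/
noncomputable def totalBetti (W : WeilCohomology.{u, v} ops) (X : 𝒱.Obj) : ℕ :=
  Module.finrank W.K (W.H X)

/-- The kernel of the Abel-Jacobi map, as a set of cycles (with rational coefficients). -/
def kernel {𝓣 : CycleTheory W C} (Φ : AbelJacobi 𝓣) (Z : 𝒱.Obj) : Set (C.A Z) :=
  {a | 𝓣.HomTriv a ∧ Φ.aj Z a = 0}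

/-- **The gap laws for Abel-Jacobi kernels.** Here `pw X m` is the product of `m + 1` copies of `X`,
`HasIndep S x` says that there are at least `x` linearly independent elements of `S`, and
`IndepMod S T x` says that there are at least `x` elements of `S` which are linearly independent
modulo the span of `T`. -/
theorem result (𝓣 : CycleTheory W C) (Φ Ψ : AbelJacobi 𝓣) (X Y : 𝒱.Obj)
    (hX : ∀ n : ℕ, 𝓣.NumNil (pw X n)) (hD : ∀ n : ℕ, HomEqNum W (pw X n)) (m : ℕ) :
    -- injectivity up to torsion
    (kernel Φ (Y.prod (pw X m)) = {0} ∨
    ∀ n : ℕ, HasIndep (kernel Φ (Y.prod (pw X n)))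
      ((1 - 4 * (m + 4) * (totalBetti W X : ℝ) ^ (m + 6) * Real.log (n + 2) / (n + 1)) *
        cycRank ops (pw X n))) ∧
    -- comparison of two Abel-Jacobi maps
    (kernel Φ (Y.prod (pw X m)) ⊆ kernel Ψ (Y.prod (pw X m)) ∨
    ∀ n : ℕ, IndepMod (kernel Φ (Y.prod (pw X n)))
      (kernel Φ (Y.prod (pw X n)) ∩ kernel Ψ (Y.prod (pw X n)))
      ((1 - 4 * (m + 4) * (totalBetti W X : ℝ) ^ (m + 6) * Real.log (n + 2) / (n + 1)) *
        cycRank ops (pw X n))) := by
  refine ⟨?_, Pool.Agent.X312.CH.compare_law Φ Ψ X Y hX hD m⟩
  rcases Pool.Agent.X312.CH.aj_law' Φ X Y hX hD m with h | h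
  · left
    ext a
    constructor
    · intro ha
      exact h a ha
    · rintro rfl
      exact (Pool.Agent.X312.CH.mem_ker Φ 0).1 (Submodule.zero_mem _)
  · exact Or.inr h

end Pool.Agent.Results.MP_e28333_ag.AbelJacobiGap
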