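import Pool.Agent.Results.MP_e28333_ag.NormalFunctionsAtPowers
import Pool.Agent.X174.WinExpo

/-!
# Abel-Jacobi maps on the fibres over `b^(-t)`: ALL exponents in windows, all varieties over a countable field at once

The setting is that of the result `NormalFunctionsAtPowers` of helper120. Let `V_t` be the Hodge structure on the cohomology
of the fibre over `x = b^(-t)` of a family over a curve, and `z_1(t), …, z_r(t)` homologically trivial cycles on the product
of this fibre with a fixed variety with the Hodge structure `V_0`. The periods of `V_t` (paired with one form of the family)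
and the normal functions of the cycles (paired with this form and a form `η` of `V_0`) are given near `x = 0` by a vector
`L(log (1/x)) P(x)` of functions, where the entries of `P` are polynomials in a system of G-functions; we suppose that
`1, P_1, …, P_(r+n)` are linearly independent over `ℂ(x)` and that `det L(u)` has no zeros.

**Theorem.** Let `S` be a countable set of complex numbers, for example the set of all periods of varieties over the field of
algebraic numbers. Let `v ≥ 1` be a sequence of exponent of convergence at most `τ` (for `v_i = (i + 1) ^ a` this is `1 / a`,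
for `v_i = c ^ i` it is `0`) and `ρ < 1`. There is ONE set `E ⊂ ℝ` of Hausdorff dimension at most `τ / (1 - ρ)` such that for
each `x` outside `E`, all `b ≥ 2` and all `n_0` and `η ∈ S^(n_0)`, for all but finitely many `i`: for ALL `t ≥ 1` with
`|t - x v_i| ≤ v_i ^ ρ` and all Hodge structures `V_0` of rank `n_0` with `η` in `F^(p_2) V_0` the cycles
`z_1(t), …, z_r(t)` are linearly independent and the Abel-Jacobi map is injective on their span.

So ONE set `E` serves for all varieties over the field of algebraic numbers, and for each of them there are no exceptional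
`t` in the windows. The count for one vector `η` is the lemma `lin_count` of `Pool.Agent.X120.NF`.
-/

set_option autoImplicit false

open Pool.Agent.X120.BM Pool.Agent.X120.NF

namespace Pool.Agent.Results.MP_e28333_ag.ExponentsInWindows

open NormalFunctionsAtPowers (Good)

/-- the exponent of convergence of the sequence `v` is at most `τ` -/
def ExpLe (v : ℕ → ℝ) (τ : ℝ) : Prop := ∀ t : ℝ, τ < t → Summable (fun n : ℕ => (v n) ^ (-t))

/-- without a linear relation between the values at `b^(-t)` with coefficients in the span of `1` and the `η_c` the conclusion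
holds at `t` -/
theorem good_of {G : GSystem} {n r n₀ e : ℕ} (F : Functions G (r + n) e) {η : Fin n₀ → ℂ} {b t : ℕ}
    (hno : ¬ ∃ q : Fin (r + n) → ℂ, q ≠ 0 ∧
      (∀ j, q j ∈ Submodule.span ℚ (Set.range fun o : Option (Fin n₀) => o.elim 1 η)) ∧ ∑ j, q j * F.val b t j = 0)
    (w w₀ p₁ p₂ : ℕ) (hm : w + w₀ + 1 = 2 * (p₁ + p₂)) (A₀ : Matrix (Fin n₀) (Fin n₀) ℚ)
    (H₀ : ℕ → Submodule ℂ (Fin n₀ → ℂ)) (hH₀ : IsPolarized w₀ A₀ H₀) (hη : η ∈ filtration w₀ H₀ p₂) :
    Good F w w₀ p₁ p₂ A₀ H₀ η b t := by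
  intro A H hH hω CH _ _ AJ z a ha hAJ
  have hgood : ∀ q : Fin (r + n) → ℂ,
      (∀ j, q j ∈ Submodule.span ℚ (Set.range fun o : Option (Fin n₀) => o.elim 1 η)) →
      ∑ j, q j * F.val b t j = 0 → q = 0 := by
    intro q hq h0
    by_contra hq0
    exact hno ⟨q, hq0, hq, h0⟩
  have h1V : (1 : ℂ) ∈ Submodule.span ℚ (Set.range fun o : Option (Fin n₀) => o.elim 1 η) :=
    Submodule.subset_span ⟨none, rfl⟩
  have hηV : ∀ c, η c ∈ Submodule.span ℚ (Set.range fun o : Option (Fin n₀) => o.elim 1 η) :=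
    fun c => Submodule.subset_span ⟨some c, rfl⟩
  have h1 := jac_indep (by omega) hH hH₀ hω hη h1V hηV hgood ha
  refine inj_of_indep AJ ?_
  have h2 : (fun j => AJ (z j)) = fun j => (Submodule.Quotient.mk (a j) : Jacobian w w₀ H H₀ (p₁ + p₂)) := funext hAJ
  rw [h2]
  exact h1

/-- **Theorem.** Let `F` be a vector of `r + n` functions as above and `S` a countable set of complex numbers. For every
sequence `v ≥ 1` of exponent of convergence at most `τ ≥ 0` and every `ρ < 1` there is a set `E ⊂ ℝ` of Hausdorff dimension at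
most `τ / (1 - ρ)` such that for each `x` outside `E`, all `b ≥ 2`, all `n_0` and all vectors `η` with entries in `S`, for all
but finitely many `i`, for ALL exponents `t ≥ 1` with `|t - x v_i| ≤ v_i ^ ρ` and ALL polarized Hodge structures
`(H_0, A_0)` of rank `n_0` and weight `w_0` with `η` in `F^(p_2)`, `w + w_0 = 2 (p_1 + p_2) - 1`, the conclusion `Good` holds:
the cycles are linearly independent and `AJ` is injective on their span. The sequences `v_i = (i + 1) ^ a` and `v_i = c ^ i`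
have exponent of convergence at most `1 / a` and `0`. -/
theorem result :
    (∀ (G : GSystem) (n r e : ℕ) (F : Functions G (r + n) e) (S : Set ℂ), S.Countable →
      ∀ (v : ℕ → ℝ) (τ ρ : ℝ), (∀ i, 1 ≤ v i) → 0 ≤ τ → ExpLe v τ → ρ < 1 →
      ∃ E : Set ℝ, dimH E ≤ ENNReal.ofReal (τ / (1 - ρ)) ∧
        ∀ x : ℝ, x ∉ E → ∀ b : ℕ, 2 ≤ b → ∀ (n₀ : ℕ) (η : Fin n₀ → ℂ), (∀ c, η c ∈ S) →
          ∃ i₀ : ℕ, ∀ i : ℕ, i₀ ≤ i → ∀ t : ℕ, 1 ≤ t → |(t : ℝ) - x * v i| ≤ (v i) ^ ρ →
            ∀ (w w₀ p₁ p₂ : ℕ), w + w₀ + 1 = 2 * (p₁ + p₂) →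
              ∀ (A₀ : Matrix (Fin n₀) (Fin n₀) ℚ) (H₀ : ℕ → Submodule ℂ (Fin n₀ → ℂ)), IsPolarized w₀ A₀ H₀ →
                η ∈ filtration w₀ H₀ p₂ → Good F w w₀ p₁ p₂ A₀ H₀ η b t) ∧
    (∀ a : ℝ, 0 < a → ExpLe (fun n : ℕ => ((n : ℝ) + 1) ^ a) (1 / a)) ∧
    (∀ c : ℝ, 1 < c → ExpLe (fun n : ℕ => c ^ n) 0) := by
  refine ⟨fun G n r e F S hS v τ ρ hv hτ hE hρ => ?_, fun κ hκ => Pool.Agent.Y854.GM.expLe_pow κ hκ,
    fun b hb => Pool.Agent.Y854.GM.expLe_geom b hb⟩
  have : Countable S := hS.to_subtype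
  have key : ∀ z : ℕ × ((n₀ : ℕ) × (Fin n₀ → S)), ∃ E : Set ℝ,
      dimH E ≤ ENNReal.ofReal (τ / (1 - ρ)) ∧
      (2 ≤ z.1 → ∀ x : ℝ, x ∉ E → ∃ i₀ : ℕ, ∀ i : ℕ, i₀ ≤ i → ∀ t : ℕ, 1 ≤ t →
          |(t : ℝ) - x * v i| ≤ (v i) ^ ρ → ¬ ∃ q : Fin (r + n) → ℂ, q ≠ 0 ∧
            (∀ j, q j ∈ Submodule.span ℚ (Set.range fun o : Option (Fin z.2.1) => o.elim 1 fun c => ((z.2.2 c : S) : ℂ))) ∧
              ∑ j, q j * F.val z.1 t j = 0) := by
    rintro ⟨b, n₀, φ⟩
    dsimp only
    by_cases hb : 2 ≤ b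
    · obtain ⟨C, hC, h⟩ := lin_count G (r + n) e (n₀ + 1) b hb
      have hVf : Module.Finite ℚ (Submodule.span ℚ
          (Set.range fun o : Option (Fin n₀) => o.elim (1 : ℂ) fun c => ((φ c : S) : ℂ))) :=
        Module.Finite.span_of_finite ℚ (Set.finite_range _)
      have hVr : Module.finrank ℚ (Submodule.span ℚ
          (Set.range fun o : Option (Fin n₀) => o.elim (1 : ℂ) fun c => ((φ c : S) : ℂ))) ≤ n₀ + 1 := by
        refine (finrank_range_le_card _).trans ?_
        rw [Fintype.card_option, Fintype.card_fin]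
      obtain ⟨E, h1, h2⟩ := Pool.Agent.X174.winLog1 _ (h F _ hVr) hv hτ hE hρ
      exact ⟨E, h1, fun _ => h2⟩
    · exact ⟨∅, by simp, fun h => absurd h hb⟩
  choose Es h1 h2 using key
  refine ⟨⋃ z, Es z, ?_, fun x hx b hb n₀ η hη => ?_⟩
  · rw [dimH_iUnion]
    exact iSup_le h1
  · obtain ⟨i₀, hi₀⟩ := h2 ⟨b, n₀, fun c => ⟨η c, hη c⟩⟩ hb x (fun hm => hx (Set.mem_iUnion.2 ⟨_, hm⟩))
    exact ⟨i₀, fun i hi t ht htx w w₀ p₁ p₂ hm A₀ H₀ hH₀ hηF => good_of F (hi₀ i hi t ht htx) w w₀ p₁ p₂ hm A₀ H₀ hH₀ hηF⟩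

end Pool.Agent.Results.MP_e28333_ag.ExponentsInWindows
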