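import Pool.Agent.X264.AJ.Main

/-!
# Injectivity of the Abel–Jacobi map over `ℚ` and over imaginary quadratic fields
-/

set_option autoImplicit false

open Pool.Agent.X264.AJ

namespace Pool.Agent.Results.MP_e28333_ag.ImaginaryQuadraticFields

universe u

/-- **The Abel–Jacobi map over `ℚ` and over imaginary quadratic fields.** The following statements
are equivalent.
(a) For all smooth projective `X` over `ℚ` and all `i ≥ 1`, the kernel of
`CH^i(X)^0 → J^i(X_ℂ)` is torsion.
(b) The same for all rational varieties `X` over `ℚ` of odd dimension `2i - 1`.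
(c) For one number field `K` (or for every number field `K`), all smooth projective `X` over `K`
and all `i ≥ 1`, the intersection of the kernels of the Abel–Jacobi maps `CH^i(X)^0 → J^i(X_σ)` for
all complex embeddings `σ` of `K` is torsion.
(d) For one imaginary quadratic field `K` (or for every imaginary quadratic field `K`), all smooth
projective `X` over `K` and all `i ≥ 1`, the kernel of `CH^i(X)^0 → J^i(X ×_K ℂ)` is torsion. -/
theorem result (T : Sys.{u}) (hT : T.IsAJ) :
    (T.Inj ⊥ ↔ T.InjRat ⊥) ∧
    (∀ K : IntermediateField ℚ ℂ, FiniteDimensional ℚ K → (T.Inj ⊥ ↔ T.InjAll K)) ∧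
    ∀ K : IntermediateField ℚ ℂ, IsImaginaryQuadratic K → (T.Inj ⊥ ↔ T.Inj K) := by
  refine ⟨Sys.inj_iff_rat hT ⊥, fun K hK => Sys.inj_iff_all hT hK, fun K hK => ?_⟩
  obtain ⟨h1, h2, h3⟩ := imquad_stable hK
  rw [Sys.inj_iff_real hT h1 h2, h3]

end Pool.Agent.Results.MP_e28333_ag.ImaginaryQuadraticFields
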