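import Pool.Agent.X120.NF.Aj

/-!
# The Abel-Jacobi map on the cycles of a family over `ℚ` in the fibres over the points `b^(-t)`

Let `f : X → S` be a smooth projective family over an open part `S` of the projective line over `ℚ`, `Y` a smooth projective variety over `ℚ`, and let `Z_1, …, Z_r` be algebraic cycles of codimension `m` on
`X ×_S (Y × S)`, whose restrictions `Z_(j,t)` to the fibres `X_t × Y` are homologically trivial. Let `V_t`, of rank `n`, be a direct factor of the cohomology of the fibre `X_t` in degree `w` and `V_0`, of dimension `n_0`, a direct factor of the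
cohomology of `Y` in degree `w_0`, `w + w_0 = 2m - 1`. The Abel-Jacobi map has a component with values in the intermediate Jacobian of `V_t ⊗ V_0`. Let `ω` be a section of `F^(p_1)` of the de Rham cohomology
over `ℚ(x)`, `ω_t ∈ V_t`, and `η` in `F^(p_2) V_0`, `p_1 + p_2 = m`. The value of the pairing of the Abel-Jacobi image of `Z_(j,t)` with `ω_t ⊗ η` is an integral `p_j(t)` of this form over a chain `Γ_(j,t)` (it depends on the
choice of the chain up to periods). We suppose that near `x = 0` the vector with the entries `p_1, …, p_r` and the `n` periods of `ω` is `L(log(1/x)) P(x)`, where the entries of `P` are polynomials with any complex coefficients in a system of G-functions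
with rational coefficients (solutions of a differential system with a regular singularity with rational exponents at infinity), the entries of `L(u)` are polynomials, and `L(u)` is invertible. If the fibre over `x = 0` is smooth this is so with
`L = 1`, since the functions are linear combinations, with complex coefficients, of the entries of a fundamental matrix of solutions at `0` of the extended Gauss-Manin system over `ℚ(x)`; `x = 0` may also be a point with unipotent monodromy. We suppose that the functions `1`, `P_1, …, P_(r+n)`
are linearly independent over `ℂ(x)`. This is so if the monodromy representation on `V` is irreducible and not trivial, and the normal functions (contracted with `η`) are linearly independent modulo constants: the differential Galois group then contains the group `Hom(ℚ^r, V)`.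

**Theorem.** Let `b ≥ 2` be an integer. There is a constant `C`, which depends only on the G-functions, `b`, `n`, `r`, `n_0` and on a bound `e` for the degrees of the polynomials, such that for all such families and cycles, all `V_0`, `η` and all `N ≥ 2`: for all but at
most `C log N` of the `t ≤ N` the cycles `Z_(1,t), …, Z_(r,t)` on `X_t × Y`, `x = b^(-t)`, are linearly independent in `CH^m(X_t × Y)_ℚ`, and the Abel-Jacobi map is injective on the subspace of `CH^m(X_t × Y)^0_ℚ` which is spanned by the `Z_(j,t)`.

So for all but few of these varieties over `ℚ` the kernel of the Abel-Jacobi map on the group generated by the cycles of the family is a torsion group. For a cycle with a normal function which is not torsion (modulo constants) it was known that `Z_(1,t)` is not torsion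
for `t` outside a thin set (by specialisation of the `ℓ`-adic Abel-Jacobi map; the points `b^(-t)` may be a part of a thin set) and that the complex Abel-Jacobi image is not torsion for `t` outside a countable set; for Ceresa and Gross-Schoen cycles Gao and Zhang proved it for all but finitely many
rational points in an open set of the moduli space. The theorem is for all families and cycles, but only for the points `b^(-t)`. The construction of such cycles is no part of the theorem.

Proof. A relation between the Abel-Jacobi images gives a linear relation between the `p_j(t)` and the periods, with rational coefficients for the `p_j(t)` and with coefficients in the space spanned by the coordinates of `η` for the periods. By the counting theorem on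
values of G-functions on geometric sequences (`Pool.Agent.X120.GS`) for all but few points this relation is the specialisation of a relation over `ℂ(x)`.
-/

set_option autoImplicit false

open Pool.Agent.X120.BM Pool.Agent.X120.NF

namespace Pool.Agent.Results.MP_e28333_ag.NormalFunctionsAtPowers

/-- For all Hodge structures `H` of weight `w` with a form `A` such that the vector of the periods at `x = b^(-t)` is in `F^(p_1)`, for all groups `CH`, homomorphisms `AJ` from `CH` to `V_ℂ / (F^m + V_ℚ)`,
`V = V_t ⊗ V_0`, `m = p_1 + p_2`, and all elements `z_1, …, z_r` of `CH` such that the `AJ z_j` are represented by elements with the pairings `p_j(t)` with `ω_t ⊗ η`: the `z_j` are linearly independent and `AJ` is injective on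
the subspace which they span. -/
def Good {G : GSystem} {n r n₀ e : ℕ} (F : Functions G (r + n) e) (w w₀ p₁ p₂ : ℕ) (A₀ : Matrix (Fin n₀) (Fin n₀) ℚ)
    (H₀ : ℕ → Submodule ℂ (Fin n₀ → ℂ)) (η : Fin n₀ → ℂ) (b t : ℕ) : Prop :=
  ∀ (A : Matrix (Fin n) (Fin n) ℚ) (H : ℕ → Submodule ℂ (Fin n → ℂ)), IsPolarized w A H →
    periods (F.val b t) ∈ filtration w H p₁ →
    ∀ (CH : Type) [AddCommGroup CH] [Module ℚ CH] (AJ : CH →ₗ[ℚ] Jacobian w w₀ H H₀ (p₁ + p₂)) (z : Fin r → CH)
      (a : Fin r → Matrix (Fin n) (Fin n₀) ℂ), IsRepresented A A₀ (F.val b t) η a →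
      (∀ j, AJ (z j) = Submodule.Quotient.mk (a j)) →
      LinearIndependent ℚ z ∧ ∀ x ∈ Submodule.span ℚ (Set.range z), AJ x = 0 → x = 0

/-- **The theorem.** -/
theorem result (G : GSystem) (n r n₀ e b : ℕ) (hb : 2 ≤ b) :
    ∃ C : ℝ, 0 ≤ C ∧ ∀ (F : Functions G (r + n) e) (w w₀ p₁ p₂ : ℕ), w + w₀ + 1 = 2 * (p₁ + p₂) →
      ∀ (A₀ : Matrix (Fin n₀) (Fin n₀) ℚ) (H₀ : ℕ → Submodule ℂ (Fin n₀ → ℂ)), IsPolarized w₀ A₀ H₀ →
      ∀ η ∈ filtration w₀ H₀ p₂, ∀ N : ℕ, 2 ≤ N →
      (({t : ℕ | 1 ≤ t ∧ t ≤ N ∧ ¬ Good F w w₀ p₁ p₂ A₀ H₀ η b t}.ncard : ℕ) : ℝ) ≤ C * Real.log N := by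
  classical
  obtain ⟨C, hC, hcount⟩ := lin_count G (r + n) e (n₀ + 1) b hb
  refine ⟨C, hC, ?_⟩
  intro F w w₀ p₁ p₂ hm A₀ H₀ hH₀ η hη N hN
  -- the space of the coefficients
  set V₀ : Submodule ℚ ℂ := Submodule.span ℚ (Set.range fun o : Option (Fin n₀) => o.elim 1 η) with hV₀
  have hVf : Module.Finite ℚ V₀ := Module.Finite.span_of_finite ℚ (Set.finite_range _)
  have hVr : Module.finrank ℚ V₀ ≤ n₀ + 1 := by
    refine (finrank_range_le_card _).trans ?_
    rw [Fintype.card_option, Fintype.card_fin]
  refine le_trans ?_ (hcount F V₀ hVr N hN)
  have hfin : {t : ℕ | 1 ≤ t ∧ t ≤ N ∧ ∃ q : Fin (r + n) → ℂ, q ≠ 0 ∧ (∀ j, q j ∈ V₀) ∧ ∑ j, q j * F.val b t j = 0}.Finite :=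
    (Set.finite_Iic N).subset fun t ht => ht.2.1
  refine Nat.cast_le.2 (Set.ncard_le_ncard ?_ hfin)
  rintro t ⟨ht1, htN, hnot⟩
  refine ⟨ht1, htN, ?_⟩
  by_contra hno
  apply hnot
  intro A H hH hω CH _ _ AJ z a ha hAJ
  have hgood : ∀ q : Fin (r + n) → ℂ, (∀ j, q j ∈ V₀) → ∑ j, q j * F.val b t j = 0 → q = 0 := by
    intro q hq h0
    by_contra hq0
    exact hno ⟨q, hq0, hq, h0⟩
  have h1V : (1 : ℂ) ∈ V₀ := Submodule.subset_span ⟨none, rfl⟩
  have hηV : ∀ c, η c ∈ V₀ := fun c => Submodule.subset_span ⟨some c, rfl⟩
  have h1 := jac_indep (by omega) hH hH₀ hω hη h1V hηV hgood ha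
  refine inj_of_indep AJ ?_
  have h2 : (fun j => AJ (z j)) = fun j => (Submodule.Quotient.mk (a j) : Jacobian w w₀ H H₀ (p₁ + p₂)) := funext hAJ
  rw [h2]
  exact h1

end Pool.Agent.Results.MP_e28333_ag.NormalFunctionsAtPowers
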